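import Pool.Agent.W973.IP.FDefs

set_option autoImplicit false

namespace Pool.Agent.W236.IP

open Pool.Agent.W973.IP Pool.Agent.NPC Pool.Agent.NPC.ER Pool.Agent.NPC.H612

theorem sum_lr (n : ℕ) (f : ℕ → ℝ) : ((List.range n).map f).sum = ∑ i : Fin n, f i := by
  rw [← Finset.sum_range (fun i => f i)]
  induction n with
  | zero => simp
  | succ n ih =>
    rw [List.range_succ, List.map_append, List.sum_append, ih, Finset.sum_range_succ]
    simp

theorem sum_fm {α β : Type} (l : List α) (g : α → List β) (f : β → ℝ) :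
    ((l.flatMap g).map f).sum = (l.map fun a => ((g a).map f).sum).sum := by
  induction l with
  | nil => simp
  | cons a l ih => simp [ih]

theorem ev_pow (x : ℕ → ℝ) (t : Tm) (k : ℕ) : (powT' t k).eval x = t.eval x ^ k := by
  unfold powT'
  rw [eval_prodT, List.map_map]
  induction k with
  | zero => simp
  | succ k ih =>
    rw [List.range_succ, List.map_append, List.prod_append, ih, pow_succ]
    simp

theorem ev_num (x : ℕ → ℝ) (k : ℕ) : (numT k).eval x = (k : ℝ) := by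
  unfold numT
  rw [eval_natT, valB_bits]

theorem ev_two (x : ℕ → ℝ) : twoT.eval x = 2 := by
  change (1 : ℝ) + 1 = 2
  norm_num

theorem ev_sum (x : ℕ → ℝ) (n : ℕ) (f : ℕ → Tm) :
    (sumT ((List.range n).map f)).eval x = ∑ i : Fin n, (f i).eval x := by
  rw [eval_sumT, List.map_map]
  exact sum_lr n (fun i => (f i).eval x)

theorem ev_XT (n : ℕ) (wn : ℕ → ℕ) (x : ℕ → ℝ) :
    (XT n wn).eval x = X (fun j : Fin n => x (wn j)) := by
  unfold XT X
  rw [eval_sumT, List.map_cons, List.sum_cons, List.map_map]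
  congr 1
  refine (sum_lr n (fun j => x (wn j) * x (wn j))).trans ?_
  apply Finset.sum_congr rfl
  intro j _
  ring

theorem ev_LT (n s : ℕ) (wn : ℕ → ℕ) (x : ℕ → ℝ) :
    (LT n s wn).eval x = Lf s (fun j : Fin n => x (wn j)) := by
  unfold Pool.Agent.W973.IP.LT Lf
  rw [ev_sum]
  apply Finset.sum_congr rfl
  intro j _
  rw [Tm.eval, ev_pow, ev_num, Tm.eval]

/-- The number of an index. -/
def onum {n : ℕ} (o : Option (Fin n)) : ℕ := o.elim 0 fun j => (j : ℕ) + 1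

theorem ev_owT (n : ℕ) (wn : ℕ → ℕ) (x : ℕ → ℝ) (o : Option (Fin n)) :
    (owT wn (onum o)).eval x = ow (fun j : Fin n => x (wn j)) o := by
  cases o with
  | none => simp [onum, owT, ow, Tm.eval]
  | some j => simp [onum, owT, ow, Tm.eval]

theorem ev_one (n : ℕ) (x : ℕ → ℝ) (j : Fin n) (o : Option (Fin n)) :
    (oneT (decide (onum o = (j : ℕ) + 1))).eval x = if o = some j then 1 else 0 := by
  cases o with
  | none => simp [onum, oneT, Tm.eval]
  | some i =>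
    by_cases h : i = j
    · subst h
      simp [onum, oneT, Tm.eval]
    · have h2 : (i : ℕ) ≠ j := fun h3 => h (Fin.ext h3)
      simp [onum, oneT, Tm.eval, h, h2]

theorem sum_trip (n : ℕ) (f : ℕ × ℕ × ℕ → ℝ) :
    ((trip n).map f).sum = ∑ t : Tx n, f (onum t.1, (t.2.1 : ℕ), (t.2.2 : ℕ)) := by
  unfold trip
  rw [sum_fm, sum_lr, Fintype.sum_prod_type, Fintype.sum_option, Fin.sum_univ_succ]
  have h : ∀ o : ℕ, (((List.range (MM n)).flatMap fun s =>
      (List.range (2 * (n + 1))).map fun d => (o, s, d)).map f).sum =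
      ∑ y : Fin (MM n) × Fin (2 * (n + 1)), f (o, (y.1 : ℕ), (y.2 : ℕ)) := by
    intro o
    rw [sum_fm, sum_lr, Fintype.sum_prod_type]
    apply Finset.sum_congr rfl
    intro s _
    rw [List.map_map]
    exact sum_lr (2 * (n + 1)) (fun d => f (o, (s : ℕ), d))
  rw [h]
  congr 1
  apply Finset.sum_congr rfl
  intro j _
  rw [h]
  rfl

theorem ev_trip (n : ℕ) (x : ℕ → ℝ) (f : ℕ × ℕ × ℕ → Tm) :
    (sumT ((trip n).map f)).eval x =
      ∑ t : Tx n, (f (onum t.1, (t.2.1 : ℕ), (t.2.2 : ℕ))).eval x := by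
  rw [eval_sumT, List.map_map]
  exact sum_trip n (fun t => (f t).eval x)

theorem ev_aT (n k : ℕ) (x : ℕ → ℝ) (hx : ∀ t ≤ bb n * fa n, x (nm 8 t 0) = rt t) :
    (aT n k).eval x = rt (bb n * (fa n - k)) := by
  unfold aT
  rw [Tm.eval]
  exact hx _ (Nat.mul_le_mul_left _ (Nat.sub_le _ _))

theorem ev_aT1 (n : ℕ) (l : Fin n) (x : ℕ → ℝ) (hx : ∀ t ≤ bb n * fa n, x (nm 8 t 0) = rt t) :
    (aT n (l : ℕ)).eval x = aE n (Sum.inl l) := ev_aT n l x hx

theorem ev_aT2 (n : ℕ) (t : Tx n) (x : ℕ → ℝ) (hx : ∀ t ≤ bb n * fa n, x (nm 8 t 0) = rt t) :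
    (aT n (ix3 n (onum t.1, (t.2.1 : ℕ), (t.2.2 : ℕ)))).eval x = aE n (Sum.inr t) :=
  ev_aT n _ x hx

theorem sumT3 (x : ℕ → ℝ) (a b c : Tm) :
    (sumT [a, b, c]).eval x = a.eval x + b.eval x + c.eval x := by
  rw [eval_sumT]
  simp
  ring

theorem sumT2 (x : ℕ → ℝ) (a b : Tm) :
    (sumT [a, b]).eval x = a.eval x + b.eval x := by
  rw [eval_sumT]
  simp

theorem ev_qaT (n : ℕ) (wn : ℕ → ℕ) (x : ℕ → ℝ) (hx : ∀ t ≤ bb n * fa n, x (nm 8 t 0) = rt t) :
    (qaT n wn).eval x = qa (aE n) (fun l => x (nm 3 l 0)) (fun j : Fin n => x (wn j)) := by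
  unfold qaT qa
  rw [sumT3, ev_pow, ev_XT, ev_sum, ev_trip]
  congr 1
  · congr 1
    apply Finset.sum_congr rfl
    intro l _
    rw [Tm.eval, ev_aT1 n l x hx, Tm.eval]
  · apply Finset.sum_congr rfl
    intro t _
    rw [Tm.eval, ev_aT2 n t x hx, Tm.eval, ev_pow, ev_LT, ev_owT]

theorem ev_dqT (n : ℕ) (wn : ℕ → ℕ) (x : ℕ → ℝ) (hx : ∀ t ≤ bb n * fa n, x (nm 8 t 0) = rt t)
    (j : Fin n) :
    (dqT n wn j).eval x =
      ((n : ℝ) + 2) * X (fun j : Fin n => x (wn j)) ^ (n + 1) * (2 * x (wn j)) +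
      ∑ t : Tx n, aE n (Sum.inr t) *
        (((t.2.2 : ℕ) : ℝ) * Lf (t.2.1 : ℕ) (fun j : Fin n => x (wn j)) ^ ((t.2.2 : ℕ) - 1) *
            (((t.2.1 : ℕ) : ℝ) ^ (j : ℕ)) * ow (fun j : Fin n => x (wn j)) t.1 +
          Lf (t.2.1 : ℕ) (fun j : Fin n => x (wn j)) ^ (t.2.2 : ℕ) *
            (if t.1 = some j then 1 else 0)) := by
  unfold dqT
  rw [sumT2, ev_trip]
  congr 1
  · rw [Tm.eval, Tm.eval, Tm.eval, ev_num, ev_pow, ev_XT, ev_two, Tm.eval]
    push_cast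
    ring
  · apply Finset.sum_congr rfl
    intro t _
    rw [Tm.eval, ev_aT2 n t x hx, Tm.eval, Tm.eval, Tm.eval, Tm.eval, Tm.eval, ev_num, ev_pow,
      ev_pow, ev_pow, ev_LT, ev_num, ev_owT, ev_one]

theorem gtT (h : S_HT) : S_GT := by
  intro E S wn x pT dT hx hp hd
  obtain ⟨h1, h2, h3⟩ := h E S wn x
  refine ⟨?_, ?_, ?_⟩
  · unfold GT G
    rw [sumT3, Tm.eval, Tm.eval, Tm.eval, Tm.eval, h1, hp, ev_qaT _ _ _ hx, ev_sum]
    have e1 : cV.eval x = x (nm 0 0 0) := rfl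
    have e2 : eV.eval x = x (nm 1 0 0) := rfl
    rw [e1, e2, sub_eq_add_neg]
    have e3 : ∑ i : Fin (nn S), (powT' (Tm.var (nm 3 (i : ℕ) 0)) 6).eval x =
        ∑ l : Fin (nn S), x (nm 3 (l : ℕ) 0) ^ 6 := by
      apply Finset.sum_congr rfl
      intro l _
      rw [ev_pow, Tm.eval]
    rw [e3]
  · intro j
    unfold GWT GW
    have e2 : eV.eval x = x (nm 1 0 0) := rfl
    rw [sumT3, Tm.eval, Tm.eval, Tm.eval, Tm.eval, Tm.eval, Tm.eval, h1, h3, hp, hd,
      ev_dqT _ _ _ hx, ev_two, e2]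

  · intro l
    unfold GUT GU
    have e1 : cV.eval x = x (nm 0 0 0) := rfl
    have e2 : eV.eval x = x (nm 1 0 0) := rfl
    rw [sumT3, Tm.eval, Tm.eval, Tm.eval, Tm.eval, Tm.eval, h2, hp, e1, e2, ev_num, ev_pow,
      ev_aT1 _ l x hx, Tm.eval]
    push_cast
    ring

end Pool.Agent.W236.IP
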